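import Mathlib
import Pool.Agent.X199.FTVS3

/-!
# If the second level of a free topological vector space is a k-space, so are all levels
-/

set_option autoImplicit false

open Set Topology TopologicalSpace

universe u

namespace Pool.Agent.Results.MP_24cde2_gt.LevelTwoKSpace

open Pool.Agent.X199.FT

/-- Let `X` be metrizable and let `(V, i)` be the free topological vector space over `X`. If
`sp_2(X)` is a `k`-space then `sp_4(X)`, and in fact every `sp_n(X)`, is a `k`-space. -/
theorem result (X : Type u) [TopologicalSpace X] [MetrizableSpace X] (V : Type u)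
    [AddCommGroup V] [Module ℝ V] [TopologicalSpace V] (i : X → V) (hV : IsFreeTVS X V i)
    (h : KSpace (sp i 2)) (n : ℕ) : KSpace (sp i n) := by
  obtain ⟨h1, h2⟩ := hV.of_kSpace le_rfl h
  exact hV.kSpace n

end Pool.Agent.Results.MP_24cde2_gt.LevelTwoKSpace
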